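import Pool.Agent.Helper3_PPZ.Stmts
import Pool.Agent.Helper21_PPX.Sta
import Pool.Agent.Helper63_PPX.Box

/-!
# Squad PPZ, module RMN
-/

set_option autoImplicit false

universe u

namespace Pool.Agent.PPZ.H76

open MvPolynomial PGH PPX Pool.Agent.PPZ

section alg

variable {k : Type u} [Field k]

theorem mem_Qd (d₁ d₂ M : ℕ) (Q : P4 k) :
    Q ∈ Qd k d₁ d₂ M ↔ ∀ v, degreeOf v Q ≤ ![d₁, d₂, M, M] v := H63.mem_box _ Q

theorem degreeOf_pderiv_le (i v : Fin 4) (R : P4 k) : degreeOf v (pderiv i R) ≤ degreeOf v R := by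
  rw [degreeOf_le_iff]
  intro m hm
  have h1 : m + Finsupp.single i 1 ∈ R.support := by
    rw [mem_support_iff] at hm ⊢
    intro h
    rw [coeff_pderiv, h, zero_mul] at hm
    exact hm rfl
  have h2 := degreeOf_le_iff.mp (le_refl (degreeOf v R)) _ h1
  rw [Finsupp.add_apply] at h2
  omega

theorem degreeOf_pderiv_lt (i : Fin 4) (R : P4 k) : degreeOf i (pderiv i R) ≤ degreeOf i R - 1 := by
  rw [degreeOf_le_iff]
  intro m hm
  have h1 : m + Finsupp.single i 1 ∈ R.support := by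
    rw [mem_support_iff] at hm ⊢
    intro h
    rw [coeff_pderiv, h, zero_mul] at hm
    exact hm rfl
  have h2 := degreeOf_le_iff.mp (le_refl (degreeOf i R)) _ h1
  rw [Finsupp.add_apply, Finsupp.single_eq_same] at h2
  omega

theorem pderiv_Qd (i : Fin 4) (d₁ d₂ M : ℕ) (R : P4 k) (hR : R ∈ Qd k d₁ d₂ M) :
    pderiv i R ∈ Qd k d₁ d₂ M := by
  rw [mem_Qd] at hR ⊢
  exact fun v => (degreeOf_pderiv_le i v R).trans (hR v)

theorem pderiv_ne [CharZero k] (i : Fin 4) (R : P4 k) (hd : degreeOf i R ≠ 0) :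
    pderiv i R ≠ 0 := by
  intro h0
  apply hd
  rw [← Nat.le_zero, degreeOf_le_iff]
  intro m hm
  by_contra hcon
  have hmi : 1 ≤ m i := by omega
  have e : (m - Finsupp.single i 1) + Finsupp.single i 1 = m :=
    tsub_add_cancel_of_le (Finsupp.single_le_iff.mpr hmi)
  have h1 := coeff_pderiv (i := i) R (m - Finsupp.single i 1)
  rw [h0, e, coeff_zero] at h1
  rw [mem_support_iff] at hm
  rcases mul_eq_zero.mp h1.symm with h | h
  · exact hm h
  · have : (((m - Finsupp.single i 1 : Fin 4 →₀ ℕ) i + 1 : ℕ) : k) = 0 := by exact_mod_cast h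
    rw [Nat.cast_eq_zero] at this
    omega

theorem pderiv_zero (i : Fin 4) (R : P4 k) (hd : degreeOf i R = 0) : pderiv i R = 0 := by
  ext m
  rw [coeff_pderiv, coeff_zero]
  have : coeff (m + Finsupp.single i 1) R = 0 := by
    by_contra h
    have h2 := degreeOf_le_iff.mp hd.le _ (mem_support_iff.mpr h)
    rw [Finsupp.add_apply, Finsupp.single_eq_same] at h2
    omega
  rw [this, zero_mul]

/-- the chain rule -/
theorem chain (e : Fin 4 → Polynomial k) (R : P4 k) :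
    Polynomial.derivative (aeval e R) =
      ∑ i, aeval e (pderiv i R) * Polynomial.derivative (e i) := by
  induction R using MvPolynomial.induction_on with
  | C c =>
    simp only [pderiv_C, map_zero, zero_mul, Finset.sum_const_zero]
    rw [← algebraMap_eq, AlgHom.commutes, Polynomial.algebraMap_eq, Polynomial.derivative_C]
  | add p q hp hq =>
    simp only [map_add, hp, hq, add_mul, Finset.sum_add_distrib]
  | mul_X p j hp =>
    rw [map_mul, aeval_X, Polynomial.derivative_mul, hp]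
    have h : ∀ i, aeval e (pderiv i (p * X j)) * Polynomial.derivative (e i) =
        aeval e (pderiv i p) * Polynomial.derivative (e i) * e j +
          (if i = j then aeval e p * Polynomial.derivative (e i) else 0) := by
      intro i
      rw [pderiv_mul, map_add, map_mul, map_mul, aeval_X]
      by_cases hij : i = j
      · rw [if_pos hij, hij, pderiv_X_self, map_one]; ring
      · rw [if_neg hij, pderiv_X_of_ne (fun h => hij h.symm), map_zero]; ring
    rw [Finset.sum_congr rfl fun i _ => h i, Finset.sum_add_distrib, Finset.sum_ite_eq',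
      if_pos (Finset.mem_univ _), Finset.sum_mul]

theorem ln_pderiv {N₁ N₂ : ℕ} (a : Fin N₁ → k) (b : Fin N₂ → k) (i : Fin N₁) (j : Fin N₂)
    (R : P4 k) (hR : degreeOf 3 R = 0) (h0 : ln a b i j R = 0) : ln a b i j (pderiv 2 R) = 0 := by
  have h1 := chain ![Polynomial.C (a i), Polynomial.C (b j), Polynomial.X,
    Polynomial.C (slope b j) - Polynomial.C (slope a i) * Polynomial.X] R
  have h2 : aeval ![Polynomial.C (a i), Polynomial.C (b j), Polynomial.X,
    Polynomial.C (slope b j) - Polynomial.C (slope a i) * Polynomial.X] R = (0 : Polynomial k) := h0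
  rw [h2, Fin.sum_univ_four, pderiv_zero 3 R hR] at h1
  simp only [Matrix.cons_val_zero, Matrix.cons_val_one, Matrix.cons_val, Polynomial.derivative_C,
    mul_zero, Polynomial.derivative_X, mul_one, zero_add, map_zero, zero_mul, add_zero] at h1
  exact h1.symm

/-- a polynomial without `θ` and `Λ` comes from the plane -/
theorem exists_inc (R : P4 k) (h2 : degreeOf 2 R = 0) (h3 : degreeOf 3 R = 0) :
    ∃ F : MvPolynomial (Fin 2) k, inc F = R := by
  have hinj : Function.Injective (![0, 1] : Fin 2 → Fin 4) := by decide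
  obtain ⟨F, hF⟩ := exists_rename_eq_of_vars_subset_range R (![0, 1] : Fin 2 → Fin 4) hinj (by
    intro v hv
    have hv' : v ∈ R.vars := hv
    have hv2 : degreeOf v R ≠ 0 := by
      intro h
      rw [mem_vars_iff_mem_support] at hv'
      obtain ⟨m, hm, hmv⟩ := hv'
      have := degreeOf_le_iff.mp h.le m hm
      rw [Finsupp.mem_support_iff] at hmv
      omega
    have : v ≠ 2 := fun h => hv2 (h ▸ h2)
    have : v ≠ 3 := fun h => hv2 (h ▸ h3)
    fin_cases v
    · exact ⟨0, rfl⟩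
    · exact ⟨1, rfl⟩
    · contradiction
    · contradiction)
  exact ⟨F, hF⟩

/-- a nonzero polynomial which vanishes on all the lines -/
theorem exists_line {N₁ N₂ : ℕ} (a : Fin N₁ → k) (b : Fin N₂ → k) (q : ℕ) (hq : 0 < q) :
    ∃ Q ∈ Qd k (N₁ / q) (N₂ / q) (2 * q ^ 2), Q ≠ 0 ∧ ∀ i j, ln a b i j Q = 0 := by
  have hfin : Module.Finite k (Qd k (N₁ / q) (N₂ / q) (2 * q ^ 2)) := H63.box_finite _
  have hrank : Module.finrank k (Qd k (N₁ / q) (N₂ / q) (2 * q ^ 2)) =
      (N₁ / q + 1) * (N₂ / q + 1) * ((2 * q ^ 2 + 1) * (2 * q ^ 2 + 1)) := by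
    have h1 := H63.box_finrank (k := k) ![N₁ / q, N₂ / q, 2 * q ^ 2, 2 * q ^ 2]
    rw [Fin.prod_univ_four] at h1
    simp only [Matrix.cons_val_zero, Matrix.cons_val_one, Matrix.cons_val] at h1
    rw [show Module.finrank k (Qd k (N₁ / q) (N₂ / q) (2 * q ^ 2)) = _ from h1]
    ring
  obtain ⟨F, hF⟩ : ∃ F : Qd k (N₁ / q) (N₂ / q) (2 * q ^ 2) →ₗ[k]
      (Fin N₁ × Fin N₂ × Fin (4 * q ^ 2 + 1) → k),
      ∀ (Q : Qd k (N₁ / q) (N₂ / q) (2 * q ^ 2)) (t : Fin N₁ × Fin N₂ × Fin (4 * q ^ 2 + 1)),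
        F Q t = (ln a b t.1 t.2.1 (Q : P4 k)).coeff t.2.2 :=
    ⟨LinearMap.pi fun t => (Polynomial.lcoeff k t.2.2) ∘ₗ
      (ln a b t.1 t.2.1).toLinearMap ∘ₗ (Qd k (N₁ / q) (N₂ / q) (2 * q ^ 2)).subtype,
      fun Q t => rfl⟩
  have hlt : Module.finrank k (Fin N₁ × Fin N₂ × Fin (4 * q ^ 2 + 1) → k) <
      Module.finrank k (Qd k (N₁ / q) (N₂ / q) (2 * q ^ 2)) := by
    rw [Module.finrank_fintype_fun_eq_card, hrank, Fintype.card_prod, Fintype.card_prod,
      Fintype.card_fin, Fintype.card_fin, Fintype.card_fin]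
    have e1 : N₁ < q * (N₁ / q + 1) := Nat.lt_mul_div_succ N₁ hq
    have e2 : N₂ < q * (N₂ / q + 1) := Nat.lt_mul_div_succ N₂ hq
    obtain ⟨u, hu⟩ : ∃ u, u = N₁ / q + 1 := ⟨_, rfl⟩
    obtain ⟨w, hw⟩ : ∃ w, w = N₂ / q + 1 := ⟨_, rfl⟩
    rw [← hu] at e1 ⊢
    rw [← hw] at e2 ⊢
    have e3 : N₁ * N₂ ≤ (q * u) * (q * w) := Nat.mul_le_mul e1.le e2.le
    have hu0 : 0 < u := by rw [hu]; exact Nat.succ_pos _
    have hw0 : 0 < w := by rw [hw]; exact Nat.succ_pos _
    have e4 : (N₁ * N₂) * (4 * q ^ 2 + 1) ≤ ((q * u) * (q * w)) * (4 * q ^ 2 + 1) :=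
      Nat.mul_le_mul_right _ e3
    have e5 : ((q * u) * (q * w)) * (4 * q ^ 2 + 1) <
        u * w * ((2 * q ^ 2 + 1) * (2 * q ^ 2 + 1)) := by
      have e6 : ((q * u) * (q * w)) * (4 * q ^ 2 + 1) = u * w * (q ^ 2 * (4 * q ^ 2 + 1)) := by
        ring
      rw [e6]
      apply Nat.mul_lt_mul_of_pos_left _ (Nat.mul_pos hu0 hw0)
      have e7 : (2 * q ^ 2 + 1) * (2 * q ^ 2 + 1) = q ^ 2 * (4 * q ^ 2 + 1) + 3 * q ^ 2 + 1 := by
        ring
      omega
    calc N₁ * (N₂ * (4 * q ^ 2 + 1)) = (N₁ * N₂) * (4 * q ^ 2 + 1) := by ring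
      _ ≤ _ := e4
      _ < _ := e5
  obtain ⟨Q, hQ, hQ0⟩ := Submodule.exists_mem_ne_zero_of_ne_bot
    (LinearMap.ker_ne_bot_of_finrank_lt (f := F) hlt)
  refine ⟨Q, Q.2, fun h => hQ0 (Subtype.ext h), ?_⟩
  intro i j
  ext c
  rw [Polynomial.coeff_zero]
  by_cases hc : c < 4 * q ^ 2 + 1
  · have := congrFun (LinearMap.mem_ker.mp hQ) (i, j, ⟨c, hc⟩)
    rw [hF] at this
    exact this
  · apply Polynomial.coeff_eq_zero_of_natDegree_lt
    have := H21.natDegree_lin (a i) (b j) (slope a i) (slope b j) _ _ _ (Q : P4 k) Q.2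
    change (lin (a i) (b j) (slope a i) (slope b j) (Q : P4 k)).natDegree < c
    omega

end alg

/-- the bad places for `R` -/
def Bd {k : Type u} [Field k] {N₁ N₂ : ℕ} {a : Fin N₁ → k} {b : Fin N₂ → k} (C : BC a b)
    (R : P4 k) : Set (Place k C.E) := {P | ∃ l j, C.Nd l j P ∧ ln a b l j R ≠ 0}

theorem Bd_sub {k : Type u} [Field k] {N₁ N₂ : ℕ} {a : Fin N₁ → k} {b : Fin N₂ → k} (C : BC a b)
    (R : P4 k) : Bd C R ⊆ C.nodes := by
  rintro P ⟨l, j, h, -⟩
  exact ⟨l, j, h⟩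

theorem rmn (hN : NodStmt.{u}) (hC : CtbStmt.{u}) (hV : ValStmt.{u}) (hP : PriStmt.{u})
    (hX : XzeStmt.{u}) : RmnStmt.{u} := by
  intro q hq
  obtain ⟨Nc, hNc⟩ := hC (2 * q ^ 2) 8 (by norm_num)
  obtain ⟨Nx, hNx⟩ := hX (2 * (2 * q ^ 2)) (8 * q) (by omega)
  refine ⟨max (max Nc Nx) 32, ?_⟩
  intro k _ _ _ N₁ N₂ a b h1 h2 ia ib T
  have h1c : Nc ≤ N₁ := le_trans (le_trans (le_max_left _ _) (le_max_left _ _)) h1
  have h2c : Nc ≤ N₂ := le_trans (le_trans (le_max_left _ _) (le_max_left _ _)) h2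
  have h1x : Nx ≤ N₁ := le_trans (le_trans (le_max_right _ _) (le_max_left _ _)) h1
  have h2x : Nx ≤ N₂ := le_trans (le_trans (le_max_right _ _) (le_max_left _ _)) h2
  have h1s : 32 ≤ N₁ := le_trans (le_max_right _ _) h1
  have h2s : 32 ≤ N₂ := le_trans (le_max_right _ _) h2
  obtain ⟨-, hpl, -⟩ := hP a b T
  -- few bad places
  have few : ∀ R ∈ T.v, R ∈ Qd k (N₁ / q) (N₂ / q) (2 * q ^ 2) →
      ∀ᶠ i in (T.U : Filter T.ι), (8 * q) * (Bd (T.C i) R).ncard ≤ (T.C i).n := by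
    intro R hR hRd
    classical
    have hx := hNx a b h1x h2x ia ib (fun l j => (ln a b l j R).roots.toFinset) (by
      intro l j
      refine (Multiset.toFinset_card_le _).trans ((Polynomial.card_roots' _).trans ?_)
      exact H21.natDegree_lin (a l) (b j) (slope a l) (slope b j) _ _ _ R hRd) T
    have hR' : ∀ᶠ i in (T.U : Filter T.ι), (T.C i).ev R = 0 := hR
    filter_upwards [hx, hR'] with i hxi hRi
    refine le_trans (Nat.mul_le_mul_left _ ?_) hxi
    apply Set.ncard_le_ncard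
    · rintro P ⟨l, j, hnd, hne⟩
      refine ⟨l, j, hnd, ?_⟩
      obtain ⟨τ, -, hτ, hval, -, -⟩ := hV a b ia ib (T.C i) l j P hnd
      refine ⟨τ, ?_, hτ 2⟩
      rw [Multiset.mem_toFinset, Polynomial.mem_roots hne]
      -- the value of the restriction is zero
      by_contra hc
      have hc' : (ln a b l j R).eval τ ≠ 0 := hc
      have h3 := hval (R - C ((ln a b l j R).eval τ)) (by
        have e : ln a b l j (C ((ln a b l j R).eval τ)) =
            Polynomial.C ((ln a b l j R).eval τ) := by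
          rw [← algebraMap_eq, AlgHom.commutes]; rfl
        rw [map_sub, e, Polynomial.eval_sub, Polynomial.eval_C, sub_self])
      have h4 : (T.C i).ev (R - C ((ln a b l j R).eval τ)) =
          -algebraMap k (T.C i).E ((ln a b l j R).eval τ) := by
        have e1 : (T.C i).ev (R - C ((ln a b l j R).eval τ)) = (T.C i).ev R -
            (T.C i).ev (C ((ln a b l j R).eval τ)) := by
          unfold BC.ev; rw [map_sub]
        have e2 : (T.C i).ev (C ((ln a b l j R).eval τ)) =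
            algebraMap k (T.C i).E ((ln a b l j R).eval τ) := by
          unfold BC.ev; rw [aeval_C]
        rw [e1, e2, hRi, zero_sub]
      rw [h4] at h3
      have h5 := h3.neg
      rw [neg_neg] at h5
      exact Place.not_ge_one_const P hc' h5
    · refine (hN a b ia ib (T.C i)).1.subset ?_
      rintro P ⟨l, j, hnd, -⟩
      exact ⟨l, j, hnd⟩
  -- polynomials vanishing at almost all places
  have big : ∀ R : P4 k,
      (∀ᶠ i in (T.U : Filter T.ι), (8 * q) * (Bd (T.C i) R).ncard ≤ (T.C i).n) →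
      ∀ Q ∈ Qd k (N₁ / q) (N₂ / q) (2 * q ^ 2),
      (∀ l j, ln a b l j R = 0 → ln a b l j Q = 0) → Q ∈ T.v := by
    intro R hR Q hQd hQ
    change ∀ᶠ i in (T.U : Filter T.ι), (T.C i).ev Q = 0
    filter_upwards [hR] with i hRi
    obtain ⟨hfin, hh0, -, -, hNh, -⟩ := hN a b ia ib (T.C i)
    have hn0 : 0 < (T.C i).n := by
      have := hNh 32 le_rfl h1s h2s
      omega
    apply hNc a b h1c h2c ia ib (T.C i) (N₁ / q) (N₂ / q) (2 * q ^ 2) le_rfl Q hQd
      ((T.C i).nodes \ Bd (T.C i) R) Set.sdiff_subset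
    · rintro P ⟨⟨l, j, hnd⟩, hbd⟩
      have hz : ln a b l j R = 0 := by
        by_contra h
        exact hbd ⟨l, j, hnd, h⟩
      obtain ⟨τ, -, -, hval, -, -⟩ := hV a b ia ib (T.C i) l j P hnd
      apply hval
      rw [hQ l j hz, Polynomial.eval_zero]
    · obtain ⟨B, hB⟩ : ∃ B, B = (Bd (T.C i) R).ncard := ⟨_, rfl⟩
      have hS : (T.C i).n ≤ ((T.C i).nodes \ Bd (T.C i) R).ncard + B := by
        have := Set.ncard_sdiff_add_ncard_of_subset (Bd_sub (T.C i) R) hfin
        rw [hB, this]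
        exact le_rfl
      rw [← hB] at hRi
      obtain ⟨S, hSe⟩ : ∃ S, S = ((T.C i).nodes \ Bd (T.C i) R).ncard := ⟨_, rfl⟩
      rw [← hSe] at hS ⊢
      obtain ⟨n, hn⟩ : ∃ n, n = (T.C i).n := ⟨_, rfl⟩
      rw [← hn] at hRi hS hn0 ⊢
      have hB32 : 32 * B ≤ n := by
        have : 32 * B ≤ 8 * q * B := Nat.mul_le_mul_right _ (by omega)
        omega
      have d1 : 4 * (N₁ / q) ≤ N₁ :=
        (Nat.mul_le_mul_right _ hq).trans (Nat.mul_div_le N₁ q)
      have d2 : 4 * (N₂ / q) ≤ N₂ :=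
        (Nat.mul_le_mul_right _ hq).trans (Nat.mul_div_le N₂ q)
      have d3 : 4 * ((N₁ / q) * N₂) ≤ N₁ * N₂ := by
        have := Nat.mul_le_mul_right N₂ d1
        rwa [mul_assoc] at this
      have d4 : 4 * ((N₂ / q) * N₁) ≤ N₁ * N₂ := by
        have := Nat.mul_le_mul_right N₁ d2
        rw [mul_assoc] at this
        rwa [mul_comm N₁ N₂]
      have d5 : 8 * ((N₁ / q) * N₂ + (N₂ / q) * N₁) + N₁ * N₂ ≤ 5 * (N₁ * N₂) := by omega
      have d6 : 5 * n < 8 * S := by omega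
      have d7 : 0 < N₁ * N₂ := Nat.mul_pos (by omega) (by omega)
      calc (8 * ((N₁ / q) * N₂ + (N₂ / q) * N₁) + N₁ * N₂) * n ≤ 5 * (N₁ * N₂) * n :=
            Nat.mul_le_mul_right _ d5
        _ = (N₁ * N₂) * (5 * n) := by ring
        _ < (N₁ * N₂) * (8 * S) := Nat.mul_lt_mul_of_pos_left d6 d7
        _ = 8 * (N₁ * N₂) * S := by ring
  -- (a) no equation without `Λ`
  have pa : ∀ d : ℕ, ∀ R ∈ T.v, R ≠ 0 → R ∈ Qd k (N₁ / q) (N₂ / q) (2 * q ^ 2) →
      degreeOf 3 R = 0 → degreeOf 2 R ≤ d → False := by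
    intro d
    induction d with
    | zero =>
      intro R hR hR0 _ h3 h2'
      obtain ⟨F, hF⟩ := exists_inc R (Nat.le_zero.mp h2') h3
      rw [← hF] at hR hR0
      apply hR0
      rw [hpl F hR, map_zero]
    | succ d ih =>
      intro R hR hR0 hRd h3 h2'
      by_cases hd : degreeOf 2 R = 0
      · exact ih R hR hR0 hRd h3 (by omega)
      · refine ih (pderiv 2 R) ?_ (pderiv_ne 2 R hd) (pderiv_Qd 2 _ _ _ R hRd) ?_ ?_
        · exact big R (few R hR hRd) _ (pderiv_Qd 2 _ _ _ R hRd) fun l j h =>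
            ln_pderiv a b l j R h3 h
        · exact Nat.le_zero.mp ((degreeOf_pderiv_le 2 3 R).trans h3.le)
        · exact (degreeOf_pderiv_lt 2 R).trans (by omega)
  have pb : ∀ d : ℕ, ∀ R ∈ T.v, R ≠ 0 → R ∈ Qd k (N₁ / q) (N₂ / q) (2 * q ^ 2) →
      degreeOf 3 R ≤ d → ∃ R' ∈ T.v, R' ∈ Qd k (N₁ / q) (N₂ / q) (2 * q ^ 2) ∧
        pderiv 3 R' ∉ T.v := by
    intro d
    induction d with
    | zero =>
      intro R hR hR0 hRd h3
      exact (pa _ R hR hR0 hRd (Nat.le_zero.mp h3) le_rfl).elim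
    | succ d ih =>
      intro R hR hR0 hRd h3
      by_cases hv : pderiv 3 R ∈ T.v
      · have hd : degreeOf 3 R ≠ 0 := fun h => pa _ R hR hR0 hRd h le_rfl
        exact ih (pderiv 3 R) hv (pderiv_ne 3 R hd) (pderiv_Qd 3 _ _ _ R hRd)
          ((degreeOf_pderiv_lt 3 R).trans (by omega))
      · exact ⟨R, hR, hRd, hv⟩
  -- an equation
  obtain ⟨Q, hQd, hQ0, hQl⟩ := exists_line a b q (by omega)
  have hQv : Q ∈ T.v := by
    refine big 0 ?_ Q hQd (fun l j _ => hQl l j)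
    refine Filter.Eventually.of_forall fun i => ?_
    have : Bd (T.C i) (0 : P4 k) = ∅ := by
      apply Set.eq_empty_of_forall_notMem
      rintro P ⟨l, j, -, h⟩
      exact h (map_zero _)
    rw [this, Set.ncard_empty, mul_zero]
    exact Nat.zero_le _
  obtain ⟨R, hR, hRd, hRn⟩ := pb _ Q hQv hQ0 hQd le_rfl
  refine ⟨R, hR, hRd, hRn, ?_⟩
  filter_upwards [few R hR hRd] with i hi
  refine le_trans ?_ hi
  exact Nat.mul_le_mul_right _ (by omega)

end Pool.Agent.PPZ.H76
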